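import Pool.Agent.W2helper77.CS.Tha
import Pool.Agent.W2helper15.CS.GR
import Pool.Agent.W2helper15.CS.RL
import Pool.Agent.W2helper15.CS.TR
import Pool.Agent.W2helper24.CS.Cyc
import Pool.Agent.W2helper53.CS.PC
import Pool.Agent.W2helper59.CS.Num
import Pool.Agent.W2helper71.CS.Low
import Pool.Agent.W2helper75.CS.Rot
import Pool.Agent.W2helper92.CS.PX

/-!
# Project CS: assembly
-/

set_option autoImplicit false

namespace Pool.Agent.W2helper77.CS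

open Real Equiv
open Pool.Agent.N476.CT (inv Cyc cyc Gam edist_le)

theorem thaF : S_THA := tha Pool.Agent.W2helper75.CS.rot Pool.Agent.W2helper24.CS.cyc

theorem sum_vals (m : ℕ) : (vals m).sum = 0 := by
  unfold vals
  induction m with
  | zero => simp
  | succ m ih =>
    rw [List.range_succ, List.flatMap_append, List.sum_append, ih]
    simp

theorem sum_map_neg (l : List ℤ) : (l.map fun v => -v).sum = -l.sum := by
  induction l with
  | nil => simp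
  | cons a l ih => simp [ih]; ring

/-- every list of the values `±1, …, ±(2m-1)` has a rotation with many ascending pairs -/
theorem evenUp (m : ℕ) (L : List ℤ) (hL : L.Perm (vals m)) :
    ∃ r, π / 4 * (m : ℝ) ^ 2 - m ≤ asc (L.rotate r) := by
  have hs : (L.map fun v => -v).sum = 0 := by
    rw [sum_map_neg, hL.sum_eq, sum_vals, neg_zero]
  obtain ⟨r, hr⟩ := Pool.Agent.W2helper24.CS.cyc.1 _ hs
  refine ⟨r, ?_⟩
  set M := L.rotate r with hM
  have hMp : M.Perm (vals m) := (List.rotate_perm L r).trans hL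
  have hpre : ∀ i, (M.take i).sum ≤ 0 := by
    intro i
    have h1 := hr i
    rw [← List.map_rotate, ← List.map_take, sum_map_neg] at h1
    linarith
  obtain ⟨hC, hne, hn1, hn2, hp1, hp2⟩ := Pool.Agent.W2helper53.CS.pa.2 m M hMp
  have ha := Pool.Agent.W2helper53.CS.pa.1 M hne
  have hx := (Pool.Agent.W2helper92.CS.px (neg M) hp1 hn1).1
  have hy := (Pool.Agent.W2helper92.CS.px (pos M) hp2 hn2).2
  have hc := Pool.Agent.W2helper53.CS.pc M hne hpre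
  have ht := thaF m _ _ hC
  have hnum := Pool.Agent.W2helper59.CS.num.1 m
  unfold J at ht
  rw [hx, hy] at ht
  have : (asc M : ℝ) = dsc (neg M) + ascN (pos M) + xcr M := by exact_mod_cast ha
  linarith

/-- a list of the values `±1, …, ±(2m-1)` all of whose rotations have few ascending pairs -/
theorem evenLo (m : ℕ) : ∃ L : List ℤ, L.Perm (vals m) ∧
    ∀ r, (asc (L.rotate r) : ℝ) ≤ π / 4 * (m : ℝ) ^ 2 + 2 * m := by
  obtain ⟨L, hL, hp, ha⟩ := Pool.Agent.W2helper71.CS.low m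
  refine ⟨L, hL, fun r => ?_⟩
  have hnum := Pool.Agent.W2helper59.CS.num.2 m
  rw [Finset.sum_add_distrib] at ha
  simp only [Finset.sum_const, Finset.card_range, nsmul_eq_mul, mul_one] at ha
  rw [← List.rotate_mod]
  by_cases h0 : L.length = 0
  · have : L = [] := List.length_eq_zero_iff.mp h0
    subst this
    simp [asc]
    positivity
  have hr : r % L.length ≤ L.length := (Nat.mod_lt _ (by omega)).le
  have h1 := Pool.Agent.W2helper15.CS.rl m L hL _ hr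
  have h2 := hp (r % L.length)
  have h3 : (asc (L.rotate (r % L.length)) : ℤ) ≤ asc L := by linarith
  have h4 : (asc (L.rotate (r % L.length)) : ℝ) ≤ asc L := by exact_mod_cast h3
  linarith

/-- conversion of an upper bound for lists -/
theorem convUp {n : ℕ} (hn : 1 ≤ n) (b : ℝ) (σ : Perm (Fin n))
    (h : ∃ r, b ≤ asc ((lst σ).rotate r)) :
    ∃ i, (inv (σ * (finRotate n) ^ i) : ℝ) ≤ (n : ℝ) * (n - 1) / 2 - b := by
  obtain ⟨r, hr⟩ := h
  refine ⟨r, ?_⟩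
  rw [← Pool.Agent.W2helper15.CS.tr.2.1] at hr
  have h1 := Pool.Agent.W2helper15.CS.tr.1 n (σ * finRotate n ^ r)
  have h2 : 2 * ((asc (lst (σ * finRotate n ^ r)) : ℝ) + inv (σ * finRotate n ^ r)) =
      n * ((n : ℝ) - 1) := by
    have : ((n - 1 : ℕ) : ℝ) = (n : ℝ) - 1 := by
      rw [Nat.cast_sub hn]; simp
    rw [← this]
    exact_mod_cast h1
  linarith

theorem convLo {n : ℕ} (hn : 1 ≤ n) (b : ℝ) (σ : Perm (Fin n))
    (h : ∀ r, (asc ((lst σ).rotate r) : ℝ) ≤ b) (i : ℕ) :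
    (n : ℝ) * (n - 1) / 2 - b ≤ inv (σ * (finRotate n) ^ i) := by
  have hr := h i
  rw [← Pool.Agent.W2helper15.CS.tr.2.1] at hr
  have h1 := Pool.Agent.W2helper15.CS.tr.1 n (σ * finRotate n ^ i)
  have h2 : 2 * ((asc (lst (σ * finRotate n ^ i)) : ℝ) + inv (σ * finRotate n ^ i)) =
      n * ((n : ℝ) - 1) := by
    have : ((n - 1 : ℕ) : ℝ) = (n : ℝ) - 1 := by
      rw [Nat.cast_sub hn]; simp
    rw [← this]
    exact_mod_cast h1
  linarith

/-- a bound for the distances -/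
theorem edUp {n : ℕ} (b : ℝ) (h : ∀ σ : Perm (Fin n), ∃ i, (inv (σ * (finRotate n) ^ i) : ℝ) ≤ b)
    (γ : Cyc n) : ∃ k : ℕ, (Gam n).edist (cyc n) γ ≤ k ∧ (k : ℝ) ≤ b := by
  obtain ⟨σ, hσ⟩ := isConj_iff.mp γ.2
  obtain ⟨i, hi⟩ := h σ
  refine ⟨_, edist_le (σ * (finRotate n) ^ i) γ ?_, hi⟩
  rw [← hσ, mul_inv_rev]
  have : (finRotate n) ^ i * finRotate n * ((finRotate n) ^ i)⁻¹ = finRotate n := by
    rw [← pow_succ, pow_succ', mul_assoc, mul_inv_cancel, mul_one]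
  calc σ * finRotate n * σ⁻¹
      = σ * ((finRotate n) ^ i * finRotate n * ((finRotate n) ^ i)⁻¹) * σ⁻¹ := by rw [this]
    _ = _ := by group

/-- the largest distance from `c_n` -/
noncomputable def SortT (n : ℕ) : ℕ∞ := ⨆ γ : Cyc n, (Gam n).edist (cyc n) γ

theorem sortUp {n : ℕ} {b : ℝ}
    (h : ∀ σ : Perm (Fin n), ∃ i, (inv (σ * (finRotate n) ^ i) : ℝ) ≤ b) :
    SortT n ≤ (⌊b⌋₊ : ℕ∞) := by
  apply iSup_le
  intro γ
  obtain ⟨k, hk1, hk2⟩ := edUp b h γ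
  exact hk1.trans (Nat.cast_le.mpr (Nat.le_floor hk2))

theorem sortLo {n : ℕ} (hn : 1 ≤ n) {b : ℝ} (σ : Perm (Fin n))
    (h : ∀ i, b ≤ (inv (σ * (finRotate n) ^ i) : ℝ)) :
    (⌈b⌉₊ : ℕ∞) ≤ SortT n := by
  have h1 := Pool.Agent.W2helper15.CS.gr n hn σ ⟨σ * finRotate n * σ⁻¹, isConj_iff.mpr ⟨σ, rfl⟩⟩ rfl
    ⌈b⌉₊ (fun i _ => Nat.ceil_le.mpr (h i))
  exact h1.trans (le_iSup (fun γ : Cyc n => (Gam n).edist (cyc n) γ) _)

/-- two bounds give the claim -/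
theorem sortBoth {n : ℕ} (hn : 1 ≤ n) {b b' : ℝ} (hb : 0 ≤ b)
    (h : ∀ σ : Perm (Fin n), ∃ i, (inv (σ * (finRotate n) ^ i) : ℝ) ≤ b) (σ : Perm (Fin n))
    (h' : ∀ i, b' ≤ (inv (σ * (finRotate n) ^ i) : ℝ)) :
    ∃ k : ℕ, SortT n = k ∧ b' ≤ k ∧ (k : ℝ) ≤ b := by
  have h1 := sortUp h
  have h2 := sortLo hn σ h'
  obtain ⟨k, hk⟩ := ENat.ne_top_iff_exists.mp (ne_top_of_le_ne_top (ENat.natCast_ne_top _) h1)
  refine ⟨k, hk.symm, ?_, ?_⟩
  · rw [← hk] at h2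
    have : ⌈b'⌉₊ ≤ k := by exact_mod_cast h2
    exact (Nat.le_ceil _).trans (by exact_mod_cast this)
  · rw [← hk] at h1
    have : k ≤ ⌊b⌋₊ := by exact_mod_cast h1
    calc (k : ℝ) ≤ (⌊b⌋₊ : ℝ) := by exact_mod_cast this
      _ ≤ b := Nat.floor_le hb

/-- the final statement -/
theorem final (hodd : S_ODD) (n : ℕ) (hn : 1 ≤ n) : ∃ k : ℕ, SortT n = k ∧
    (8 - π) / 16 * (n : ℝ) ^ 2 - 5 / 2 * n ≤ k ∧
    (k : ℝ) ≤ (8 - π) / 16 * (n : ℝ) ^ 2 + 1 / 2 * n := by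
  have hpi1 := Real.pi_pos
  have hpi2 := Real.pi_le_four
  rcases Nat.even_or_odd' n with ⟨m, rfl | rfl⟩
  · have hm : (1 : ℝ) ≤ m := by
      have : 1 ≤ m := by omega
      exact_mod_cast this
    obtain ⟨L, hL, hLr⟩ := evenLo m
    obtain ⟨σ, rfl⟩ := Pool.Agent.W2helper15.CS.tr.2.2.2.2.1 m L hL
    have hup : ∀ σ : Perm (Fin (2 * m)), ∃ i, (inv (σ * (finRotate (2 * m)) ^ i) : ℝ) ≤
        ((2 * m : ℕ) : ℝ) * (((2 * m : ℕ) : ℝ) - 1) / 2 - (π / 4 * (m : ℝ) ^ 2 - m) := fun σ =>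
      convUp hn _ σ (evenUp m _ (Pool.Agent.W2helper15.CS.tr.2.2.1 m σ))
    have hlo := convLo hn _ σ hLr
    have hb : 0 ≤ ((2 * m : ℕ) : ℝ) * (((2 * m : ℕ) : ℝ) - 1) / 2 - (π / 4 * (m : ℝ) ^ 2 - m) := by
      push_cast
      nlinarith [sq_nonneg (m : ℝ), mul_nonneg (sub_nonneg.mpr hpi2) (sq_nonneg (m : ℝ))]
    obtain ⟨k, hk, h1, h2⟩ := sortBoth hn hb hup σ hlo
    refine ⟨k, hk, ?_, ?_⟩
    · push_cast at h1 ⊢
      nlinarith
    · push_cast at h2 ⊢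
      nlinarith
  · have hm : (0 : ℝ) ≤ m := Nat.cast_nonneg m
    obtain ⟨L, hL, hLr⟩ := hodd.2 m _ (evenLo m)
    obtain ⟨σ, rfl⟩ := Pool.Agent.W2helper15.CS.tr.2.2.2.2.2 m L hL
    have hup : ∀ σ : Perm (Fin (2 * m + 1)), ∃ i, (inv (σ * (finRotate (2 * m + 1)) ^ i) : ℝ) ≤
        ((2 * m + 1 : ℕ) : ℝ) * (((2 * m + 1 : ℕ) : ℝ) - 1) / 2 - (π / 4 * (m : ℝ) ^ 2 - m) :=
      fun σ => convUp hn _ σ (hodd.1 m _ (evenUp m) _ (Pool.Agent.W2helper15.CS.tr.2.2.2.1 m σ))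
    have hlo := convLo hn _ σ hLr
    have hb : 0 ≤ ((2 * m + 1 : ℕ) : ℝ) * (((2 * m + 1 : ℕ) : ℝ) - 1) / 2 -
        (π / 4 * (m : ℝ) ^ 2 - m) := by
      push_cast
      nlinarith [sq_nonneg (m : ℝ), mul_nonneg (sub_nonneg.mpr hpi2) (sq_nonneg (m : ℝ))]
    obtain ⟨k, hk, h1, h2⟩ := sortBoth hn hb hup σ hlo
    refine ⟨k, hk, ?_, ?_⟩
    · push_cast at h1 ⊢
      nlinarith
    · push_cast at h2 ⊢
      nlinarith

end Pool.Agent.W2helper77.CS
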