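import Pool.Agent.W2helper77.CS.Stm

/-!
# Project CS: the main lemma (removal of the cells with the largest value)
-/

set_option autoImplicit false

namespace Pool.Agent.W2helper77.CS

open Real

/-- `√(w² - u²)` -/
noncomputable def sq (w u : ℕ) : ℝ := √((w : ℝ) ^ 2 - (u : ℝ) ^ 2)

theorem sq_nonneg' (w u : ℕ) : 0 ≤ sq w u := Real.sqrt_nonneg _

theorem sq_le (w u : ℕ) : sq w u ≤ w := by
  unfold sq
  rw [Real.sqrt_le_iff]
  constructor
  · positivity
  · have : (0:ℝ) ≤ (u:ℝ)^2 := by positivity
    linarith

/-- the key inequality: `sin (α + β) ≤ 1` -/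
theorem key (w x y : ℕ) (hx : x ≤ w) (hy : y ≤ w) :
    sq w x * y + sq w y * x ≤ (w : ℝ) ^ 2 := by
  have hx' : (x:ℝ) ≤ w := by exact_mod_cast hx
  have hy' : (y:ℝ) ≤ w := by exact_mod_cast hy
  have x0 : (0:ℝ) ≤ x := Nat.cast_nonneg x
  have y0 : (0:ℝ) ≤ y := Nat.cast_nonneg y
  have h1 : sq w x ^ 2 = (w:ℝ)^2 - (x:ℝ)^2 := Real.sq_sqrt (by nlinarith)
  have h2 : sq w y ^ 2 = (w:ℝ)^2 - (y:ℝ)^2 := Real.sq_sqrt (by nlinarith)
  nlinarith [sq_nonneg (sq w x - y), sq_nonneg (sq w y - x)]

/-- sum of `1/u` -/
noncomputable def rs (l : List ℕ) : ℝ := (l.map fun u : ℕ => 1 / (u : ℝ)).sum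

/-- sum of `√(w²-u²)/(w u)` -/
noncomputable def S (w : ℕ) (l : List ℕ) : ℝ := (l.map fun u : ℕ => sq w u / (w * u)).sum

/-- `Σ_i (i0 + i) √(w²-u_i²)/u_i` -/
noncomputable def Ph (w : ℕ) : ℕ → List ℕ → ℝ
  | _, [] => 0
  | i, u :: l => i * (sq w u / u) + Ph w (i + 1) l

theorem Ph_shift (w : ℕ) (l : List ℕ) (i : ℕ) :
    Ph w (i + 1) l = Ph w i l + (l.map fun u : ℕ => sq w u / u).sum := by
  induction l generalizing i with
  | nil => simp [Ph]
  | cons u l ih =>
    simp only [Ph, ih (i + 1), List.map_cons, List.sum_cons]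
    push_cast
    ring

theorem Ph_append (w : ℕ) (l : List ℕ) (x i : ℕ) :
    Ph w i (l ++ [x]) = Ph w i l + (i + l.length : ℝ) * (sq w x / x) := by
  induction l generalizing i with
  | nil => simp [Ph]
  | cons u l ih =>
    simp only [Ph, List.cons_append, ih (i + 1), List.length_cons]
    push_cast
    ring

/-- pairs (largest value, later smaller value) in `xs`, given `a` largest values before -/
noncomputable def T1 (w : ℕ) : ℕ → List ℕ → ℝ
  | _, [] => 0
  | a, x :: xs => if x = w then T1 w (a + 1) xs else (a : ℝ) / (w * x) + T1 w a xs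

/-- pairs (smaller value, later largest value) in `ys`, `β` the sum of `1/v` before -/
noncomputable def T2 (w : ℕ) : ℝ → List ℕ → ℝ
  | _, [] => 0
  | β, y :: ys => if y = w then β / w + T2 w β ys else T2 w (β + 1 / (y : ℝ)) ys

/-- the list without `w` -/
def fl (w : ℕ) (l : List ℕ) : List ℕ := l.filter fun u => u ≠ w

theorem fl_cons_eq (w : ℕ) (l : List ℕ) : fl w (w :: l) = fl w l := by
  simp [fl]

theorem fl_cons_ne {w x : ℕ} (h : x ≠ w) (l : List ℕ) : fl w (x :: l) = x :: fl w l := by
  simp [fl, h]

theorem rs_append (l : List ℕ) (x : ℕ) : rs (l ++ [x]) = rs l + 1 / (x : ℝ) := by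
  simp [rs]

theorem rs_cons (l : List ℕ) (x : ℕ) : rs (x :: l) = 1 / (x : ℝ) + rs l := by
  simp [rs]

/-- the queue estimate -/
theorem queue (w y : ℕ) (hw : 0 < w) (hy : 0 < y) (hyw : y ≤ w) (Q : List ℕ)
    (hQ : ∀ u ∈ Q, 0 < u ∧ u ≤ w) :
    1 / (w : ℝ) ^ 2 * ((Q.map fun u : ℕ => sq w u / u).sum + Q.length * (sq w y / y)) ≤
      rs Q / y := by
  induction Q with
  | nil => simp [rs]
  | cons u Q ih =>
    have h1 := ih (fun v hv => hQ v (by simp [hv]))
    obtain ⟨hu, huw⟩ := hQ u (by simp)
    have hw' : (0:ℝ) < w := by exact_mod_cast hw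
    have hy' : (0:ℝ) < y := by exact_mod_cast hy
    have hu' : (0:ℝ) < u := by exact_mod_cast hu
    have h2 : 1 / (w:ℝ)^2 * (sq w u / u + sq w y / y) ≤ 1 / u / y := by
      have h3 := key w u y huw hyw
      rw [div_add_div _ _ hu'.ne' hy'.ne', one_div_mul_eq_div, div_div, div_div,
        div_le_div_iff₀ (by positivity) (by positivity)]
      nlinarith [mul_pos hu' hy']
    rw [rs_cons, List.map_cons, List.sum_cons, List.length_cons]
    push_cast
    rw [add_div]
    calc 1 / (w : ℝ) ^ 2 * (sq w u / u + (Q.map fun u : ℕ => sq w u / (u : ℝ)).sum +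
          ((Q.length : ℝ) + 1) * (sq w y / y))
        = 1 / (w:ℝ)^2 * (sq w u / u + sq w y / y) +
          1 / (w : ℝ) ^ 2 * ((Q.map fun u : ℕ => sq w u / (u : ℝ)).sum +
          Q.length * (sq w y / y)) := by ring
      _ ≤ _ := add_le_add h2 h1

/-- the step for one small value -/
theorem step1 (w x q : ℕ) (hw : 0 < w) (hx : 0 < x) (hq : q ≤ w) :
    sq w x / (w * x) ≤ ((w : ℝ) - q) / (w * x) + 1 / (w:ℝ)^2 * (q * (sq w x / x)) := by
  have hw' : (0:ℝ) < w := by exact_mod_cast hw
  have hx' : (0:ℝ) < x := by exact_mod_cast hx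
  have hq' : (q:ℝ) ≤ w := by exact_mod_cast hq
  have h1 := sq_le w x
  have h2 : (w - q : ℝ) * sq w x ≤ (w - q) * w := mul_le_mul_of_nonneg_left h1 (by linarith)
  have e : ((w : ℝ) - q) / (w * x) + 1 / (w:ℝ)^2 * (q * (sq w x / x)) - sq w x / (w * x) =
      ((w - q) * w - (w - q) * sq w x) / (w^2 * x) := by
    field_simp
    ring
  have : 0 ≤ ((w - q) * w - (w - q) * sq w x) / ((w:ℝ)^2 * x) := by
    apply div_nonneg
    · linarith
    · positivity
  linarith

theorem main (w : ℕ) (hw : 0 < w) : ∀ (xs ys : List ℕ) (Q : List ℕ) (a : ℕ) (α β : ℝ),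
    xs.length = ys.length → (∀ u ∈ xs, 0 < u ∧ u ≤ w) → (∀ u ∈ ys, 0 < u ∧ u ≤ w) →
    (∀ u ∈ Q, 0 < u ∧ u ≤ w) → a + xs.count w = w → Q.length + a + ys.count w = w →
    (∀ i, (xs.take i).count w ≤ Q.length + (ys.take i).count w) →
    crs (α - rs Q) (Q ++ fl w xs) (fl w ys) + S w (fl w xs) + S w (fl w ys) +
        1 / (w : ℝ) ^ 2 * Ph w 0 Q + (α + β) * (ys.count w : ℝ) / w ≤
      T1 w a xs + T2 w β ys + crs (α + (a : ℝ) / w) xs ys := by
  have hw' : (0:ℝ) < w := by exact_mod_cast hw
  intro xs
  induction xs with
  | nil =>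
    intro ys Q a α β hl _ _ _ ha hb _
    have hys : ys = [] := by
      cases ys with
      | nil => rfl
      | cons y ys => simp at hl
    subst hys
    simp only [List.count_nil, add_zero] at ha hb
    have hQ : Q = [] := by
      apply List.eq_nil_of_length_eq_zero
      omega
    subst hQ
    simp [crs, fl, S, Ph, T1, T2]
  | cons x xs ih =>
    intro ys Q a α β hl hxs hys hQ ha hb hp
    cases ys with
    | nil => simp at hl
    | cons y ys =>
      simp only [List.length_cons, add_left_inj] at hl
      have hxs' : ∀ u ∈ xs, 0 < u ∧ u ≤ w := fun u hu => hxs u (by simp [hu])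
      have hys' : ∀ u ∈ ys, 0 < u ∧ u ≤ w := fun u hu => hys u (by simp [hu])
      obtain ⟨hx0, hxw⟩ := hxs x (by simp)
      obtain ⟨hy0, hyw⟩ := hys y (by simp)
      have hx0' : (0:ℝ) < x := by exact_mod_cast hx0
      have hy0' : (0:ℝ) < y := by exact_mod_cast hy0
      have hp' : ∀ i, (if x = w then 1 else 0) + (xs.take i).count w ≤
          Q.length + (if y = w then 1 else 0) + (ys.take i).count w := by
        intro i
        have := hp (i + 1)
        simp only [List.take_succ_cons, List.count_cons, beq_iff_eq] at this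
        split_ifs at this ⊢ <;> omega
      -- unified treatment of the first coordinate
      have hx1 : ∃ (Q1 : List ℕ) (a1 : ℕ) (α1 : ℝ),
          (∀ u ∈ Q1, 0 < u ∧ u ≤ w) ∧ a1 + xs.count w = w ∧
          Q1.length + a1 + (y :: ys).count w = w + 1 ∧
          (∀ i, (xs.take i).count w + (if y = w then 0 else 1) ≤
            Q1.length + (ys.take i).count w) ∧
          Q ++ fl w (x :: xs) = Q1 ++ fl w xs ∧ α - rs Q = α1 - rs Q1 ∧
          α + (a : ℝ) / w + 1 / x = α1 + (a1 : ℝ) / w ∧
          S w (fl w (x :: xs)) + 1 / (w : ℝ) ^ 2 * Ph w 0 Q +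
            (α + β) * ((y :: ys).count w : ℝ) / w + T1 w a1 xs ≤
          S w (fl w xs) + 1 / (w : ℝ) ^ 2 * Ph w 0 Q1 +
            (α1 + β) * ((y :: ys).count w : ℝ) / w + T1 w a (x :: xs) := by
        by_cases hx : x = w
        · subst hx
          refine ⟨Q, a + 1, α, hQ, ?_, ?_, ?_, ?_, rfl, ?_, ?_⟩
          · simp only [List.count_cons_self] at ha
            omega
          · omega
          · intro i
            have := hp' i
            simp only [if_true] at this
            split_ifs at this ⊢ <;> omega
          · rw [fl_cons_eq]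
          · push_cast
            ring
          · rw [fl_cons_eq]
            simp [T1]
        · refine ⟨Q ++ [x], a, α + 1 / x, ?_, ?_, ?_, ?_, ?_, ?_, ?_, ?_⟩
          · intro u hu
            rw [List.mem_append, List.mem_singleton] at hu
            rcases hu with hu | rfl
            · exact hQ u hu
            · exact ⟨hx0, hxw⟩
          · rwa [List.count_cons_of_ne hx] at ha
          · rw [List.length_append, List.length_singleton]
            omega
          · intro i
            have := hp' i
            rw [if_neg hx] at this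
            rw [List.length_append, List.length_singleton]
            split_ifs at this ⊢ <;> omega
          · rw [fl_cons_ne hx, List.append_assoc, List.singleton_append]
          · rw [rs_append]
            ring
          · ring
          · rw [fl_cons_ne hx, Ph_append]
            have h1 := step1 w x Q.length hw hx0 (by omega)
            have h2 : ((w : ℝ) - (Q.length : ℝ)) = a + ((y :: ys).count w : ℝ) := by
              have : (w : ℝ) = ((Q.length + a + (y :: ys).count w : ℕ) : ℝ) := by
                rw [hb]
              rw [this]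
              push_cast
              ring
            rw [h2] at h1
            have h3 : T1 w a (x :: xs) = (a : ℝ) / (w * x) + T1 w a xs := by
              simp [T1, hx]
            have h4 : S w (x :: fl w xs) = sq w x / (w * x) + S w (fl w xs) := by
              simp [S]
            rw [h3, h4]
            have h5 : (α + 1 / (x:ℝ) + β) * ((y :: ys).count w : ℝ) / w =
                (α + β) * ((y :: ys).count w : ℝ) / w + ((y :: ys).count w : ℝ) / (w * x) := by
              field_simp
              ring
            rw [h5]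
            have h6 : ((a : ℝ) + ((y :: ys).count w : ℝ)) / (w * x) =
                (a : ℝ) / (w * x) + ((y :: ys).count w : ℝ) / (w * x) := add_div _ _ _
            rw [h6] at h1
            push_cast
            rw [zero_add, mul_add]
            linarith
      obtain ⟨Q1, a1, α1, hQ1, ha1, hb1, hp1, e1, e2, e3, hS⟩ := hx1
      have hcr : crs (α + (a : ℝ) / w) (x :: xs) (y :: ys) =
          (α1 + (a1 : ℝ) / w) / y + crs (α1 + (a1 : ℝ) / w) xs ys := by
        simp only [crs]
        rw [e3]
      rw [e1, e2, hcr]
      by_cases hy : y = w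
      · subst hy
        rw [fl_cons_eq]
        have hc : (y :: ys).count y = ys.count y + 1 := List.count_cons_self
        have h1 := ih ys Q1 a1 α1 β hl hxs' hys' hQ1 ha1 (by rw [hc] at hb1; omega)
          (by
            intro i
            have := hp1 i
            simpa using this)
        have h2 : T2 y β (y :: ys) = β / y + T2 y β ys := by simp [T2]
        rw [hc] at hS
        rw [h2]
        have h3 : (α1 + β) * ((ys.count y + 1 : ℕ) : ℝ) / y =
            (α1 + β) * (ys.count y : ℝ) / y + α1 / y + β / y := by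
          push_cast
          ring
        rw [h3] at hS
        have h4 : (α1 + (a1 : ℝ) / y) / y = α1 / y + (a1 : ℝ) / y / y := add_div _ _ _
        have h5 : (0:ℝ) ≤ (a1 : ℝ) / y / y := by positivity
        rw [h4, hc]
        linarith
      · cases Q1 with
        | nil => 
          exfalso
          have := hp1 0
          simp [hy] at this
        | cons q Q2 =>
          have hc : (y :: ys).count w = ys.count w := List.count_cons_of_ne hy
          rw [hc] at hS hb1 ⊢
          rw [List.length_cons] at hb1
          have h1 := ih ys Q2 a1 α1 (β + 1 / y) hl hxs' hys' (fun u hu => hQ1 u (by simp [hu]))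
            ha1 (by omega)
            (by
              intro i
              have := hp1 i
              rw [if_neg hy, List.length_cons] at this
              omega)
          have h2 : T2 w β (y :: ys) = T2 w (β + 1 / (y : ℝ)) ys := by simp [T2, hy]
          have h3 : S w (y :: fl w ys) = sq w y / (w * y) + S w (fl w ys) := by simp [S]
          have h4 : crs (α1 - rs (q :: Q2)) (q :: Q2 ++ fl w xs) (y :: fl w ys) =
              (α1 - rs Q2) / y + crs (α1 - rs Q2) (Q2 ++ fl w xs) (fl w ys) := by
            have e : α1 - rs (q :: Q2) + 1 / (q:ℝ) = α1 - rs Q2 := by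
              rw [rs_cons]
              ring
            simp only [List.cons_append, crs]
            rw [e]
          have h5 := queue w y hw hy0 hyw Q2 (fun u hu => hQ1 u (by simp [hu]))
          have h6 : Ph w 0 (q :: Q2) = Ph w 0 Q2 + (Q2.map fun u : ℕ => sq w u / (u:ℝ)).sum := by
            simp only [Ph, Nat.cast_zero, zero_mul, zero_add]
            exact Ph_shift w Q2 0
          have h7 := step1 w y Q2.length hw hy0 (by omega)
          have h8 : ((w : ℝ) - (Q2.length : ℝ)) = a1 + (ys.count w : ℝ) := by
            have h9 : w = Q2.length + a1 + ys.count w := by omega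
            have : (w : ℝ) = ((Q2.length + a1 + ys.count w : ℕ) : ℝ) := by
              rw [← h9]
            rw [this]
            push_cast
            ring
          rw [h8, add_div] at h7
          rw [fl_cons_ne hy, h2, h3, h4]
          rw [h6] at hS
          have h10 : (α1 + (β + 1 / (y:ℝ))) * (ys.count w : ℝ) / w =
              (α1 + β) * (ys.count w : ℝ) / w + (ys.count w : ℝ) / (w * y) := by
            field_simp
            ring
          rw [h10] at h1
          have h11 : (α1 + (a1 : ℝ) / w) / y = α1 / y + (a1 : ℝ) / (w * y) := by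
            field_simp
          have h12 : (α1 - rs Q2) / y = α1 / y - rs Q2 / y := sub_div _ _ _
          rw [h11, h12]
          rw [mul_add] at h5 hS
          linarith

end Pool.Agent.W2helper77.CS
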