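import Pool.Agent.W2helper77.TP.VolNear

/-!
The number of vertices of the finite clusters near the critical point: tails and moments.
-/

set_option autoImplicit false

namespace Pool.Agent.W2helper77.CS

open MeasureTheory Pool.Agent.W2helper77.TP

theorem sizes :
    ∃ δ c C : ℝ, 0 < δ ∧ 0 < c ∧ 0 < C ∧
      -- (1) the critical behaviour up to the scale `|p - 1/2|^(-91/36)`
      (∀ p : unitInterval, |(p:ℝ) - 1/2| ≤ δ → ∀ N : ℕ, 1 ≤ N →
        vt p N ≤ C * (N:ℝ) ^ (-(5/91) : ℝ) ∧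
        (N * |(p:ℝ) - 1/2| ^ (91/36 : ℝ) ≤ c → c * (N:ℝ) ^ (-(5/91) : ℝ) ≤ vt p N)) ∧
      ∀ m : ℕ, 1 ≤ m → ∃ c' C' : ℝ, 0 < c' ∧ 0 < C' ∧
        -- (2) the decay beyond this scale
        (∀ p : unitInterval, |(p:ℝ) - 1/2| ≤ δ → ∀ N : ℕ, 1 ≤ N →
          vt p N ≤ C' * (N:ℝ) ^ (-(5/91) : ℝ) * (1 + N * |(p:ℝ) - 1/2| ^ (91/36 : ℝ)) ^ (-m : ℝ)) ∧
        -- (3) the moments
        (∀ p : unitInterval, |(p:ℝ) - 1/2| ≤ δ → (p:ℝ) ≠ 1/2 →
          ENNReal.ofReal (c' * |(p:ℝ) - 1/2| ^ (-((91 * m - 5)/36) : ℝ)) ≤ vmom m p ∧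
          vmom m p ≤ ENNReal.ofReal (C' * |(p:ℝ) - 1/2| ^ (-((91 * m - 5)/36) : ℝ))) := by
  obtain ⟨δ, c, C, hδ, hc, hC, h1, h2⟩ := volnear
  refine ⟨δ, c, C, hδ, hc, hC, h1, ?_⟩
  intro m hm
  obtain ⟨c', C', hc', hC', h3⟩ := h2 m hm
  obtain ⟨c2, C2, -, hC2, h4⟩ := h2 (m + 1) (by omega)
  refine ⟨c', max C' (2^m * (C + C2)), hc', lt_max_of_lt_left hC', ?_, ?_⟩
  · intro p hp N hN
    have hN0 : (0:ℝ) < N := by exact_mod_cast hN
    obtain ⟨s, hs⟩ : ∃ s : ℝ, s = |(p:ℝ) - 1/2| := ⟨_, rfl⟩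
    have hs0 : 0 ≤ s := by rw [hs]; exact abs_nonneg _
    obtain ⟨x, hx⟩ : ∃ x : ℝ, x = N * s ^ (91/36 : ℝ) := ⟨_, rfl⟩
    have hx0 : 0 ≤ x := by rw [hx]; positivity
    have ex : (1 + x) ^ (-(m:ℝ)) = ((1 + x)^m)⁻¹ := by
      rw [Real.rpow_neg (by linarith), Real.rpow_natCast]
    rw [← hs, ← hx, ex, ← div_eq_mul_inv, le_div_iff₀ (by positivity)]
    have hNp : 0 < (N:ℝ) ^ (-(5/91) : ℝ) := by positivity
    have hvt := vt_nonneg p N
    rcases le_or_gt x 1 with hx1 | hx1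
    · have e1 := (h1 p hp N hN).1
      have e2 : (1 + x)^m ≤ 2^m := pow_le_pow_left₀ (by linarith) (by linarith) m
      calc vt p N * (1 + x)^m
          ≤ (C * (N:ℝ) ^ (-(5/91) : ℝ)) * 2^m := mul_le_mul e1 e2 (by positivity) (by positivity)
        _ = 2^m * C * (N:ℝ) ^ (-(5/91) : ℝ) := by ring
        _ ≤ 2^m * (C + C2) * (N:ℝ) ^ (-(5/91) : ℝ) := by
            apply mul_le_mul_of_nonneg_right _ hNp.le
            apply mul_le_mul_of_nonneg_left _ (by positivity)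
            linarith
        _ ≤ _ := mul_le_mul_of_nonneg_right (le_max_right _ _) hNp.le
    · have hsp : 0 < s := by
        rcases eq_or_lt_of_le hs0 with h | h
        · exfalso
          rw [hx, ← h, Real.zero_rpow (by norm_num)] at hx1
          linarith
        · exact h
      have hpne : (p:ℝ) ≠ 1/2 := by
        intro h
        rw [hs, h] at hsp
        simp at hsp
      have e0 : 0 ≤ C2 * s ^ (-((91 * ((m + 1 : ℕ):ℝ) - 5)/36) : ℝ) := by positivity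
      have e1 := markov p (m + 1) N hN e0 (by
        have := (h4 p hp hpne).2
        rw [← hs] at this
        exact this)
      have e2 : (1 + x)^m ≤ 2^m * x^m := by
        rw [← mul_pow]
        exact pow_le_pow_left₀ (by linarith) (by linarith) m
      have e3 : s ^ (-((91 * ((m + 1 : ℕ):ℝ) - 5)/36) : ℝ) / (N:ℝ)^(m + 1) * x^m ≤
          (N:ℝ) ^ (-(5/91) : ℝ) := by
        have f1 : s ^ (-((91 * ((m + 1 : ℕ):ℝ) - 5)/36) : ℝ) =
            s ^ (-(86/36) : ℝ) * (s ^ (91/36 : ℝ))^(-(m:ℝ)) := by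
          rw [← Real.rpow_mul hs0, ← Real.rpow_add hsp]
          congr 1
          push_cast
          ring
        have f2 : x^m = (N:ℝ)^m * (s ^ (91/36 : ℝ))^(m:ℝ) := by
          rw [hx, mul_pow, Real.rpow_natCast]
        have f3 : (s ^ (91/36 : ℝ))^(-(m:ℝ)) * (s ^ (91/36 : ℝ))^(m:ℝ) = 1 := by
          rw [← Real.rpow_add (by positivity)]
          simp
        have f4 : s ^ (-((91 * ((m + 1 : ℕ):ℝ) - 5)/36) : ℝ) / (N:ℝ)^(m + 1) * x^m =
            s ^ (-(86/36) : ℝ) / N := by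
          rw [f1, f2, pow_succ]
          have g1 : (N:ℝ)^m ≠ 0 := by positivity
          calc s ^ (-(86/36) : ℝ) * (s ^ (91/36 : ℝ))^(-(m:ℝ)) / ((N:ℝ)^m * N) *
                ((N:ℝ)^m * (s ^ (91/36 : ℝ))^(m:ℝ))
              = s ^ (-(86/36) : ℝ) / N * ((s ^ (91/36 : ℝ))^(-(m:ℝ)) *
                (s ^ (91/36 : ℝ))^(m:ℝ)) := by field_simp
            _ = _ := by rw [f3, mul_one]
        rw [f4, div_le_iff₀ hN0]
        have f5 : (N:ℝ) ^ (-(5/91) : ℝ) * N = (N:ℝ) ^ (86/91 : ℝ) := by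
          rw [← Real.rpow_add_one hN0.ne']; norm_num
        rw [f5]
        have f6 : s ^ (-(91/36) : ℝ) ≤ N := by
          rw [Real.rpow_neg hs0, ← one_div, div_le_iff₀ (by positivity)]
          rw [hx] at hx1
          exact hx1.le
        calc s ^ (-(86/36) : ℝ) = (s ^ (-(91/36) : ℝ)) ^ (86/91 : ℝ) := by
              rw [← Real.rpow_mul hs0]; norm_num
          _ ≤ _ := Real.rpow_le_rpow (by positivity) f6 (by norm_num)
      calc vt p N * (1 + x)^m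
          ≤ (C2 * s ^ (-((91 * ((m + 1 : ℕ):ℝ) - 5)/36) : ℝ) / (N:ℝ)^(m + 1)) * (2^m * x^m) :=
            mul_le_mul e1 e2 (by positivity) (by positivity)
        _ = 2^m * C2 * (s ^ (-((91 * ((m + 1 : ℕ):ℝ) - 5)/36) : ℝ) / (N:ℝ)^(m + 1) * x^m) := by
            ring
        _ ≤ 2^m * C2 * (N:ℝ) ^ (-(5/91) : ℝ) := mul_le_mul_of_nonneg_left e3 (by positivity)
        _ ≤ 2^m * (C + C2) * (N:ℝ) ^ (-(5/91) : ℝ) := by
            apply mul_le_mul_of_nonneg_right _ hNp.le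
            apply mul_le_mul_of_nonneg_left _ (by positivity)
            linarith
        _ ≤ _ := mul_le_mul_of_nonneg_right (le_max_right _ _) hNp.le
  · intro p hp hpne
    obtain ⟨g1, g2⟩ := h3 p hp hpne
    refine ⟨g1, g2.trans (ENNReal.ofReal_le_ofReal ?_)⟩
    exact mul_le_mul_of_nonneg_right (le_max_left _ _) (by positivity)

end Pool.Agent.W2helper77.CS
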