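import Pool.Agent.N476.CT.Graph

/-!
# Project CS: `Sort_n = (8 - π)/16 n² + O(n)` (MP_8de615_co)

Pieces. For a permutation of `[n]`, `n = 2m`, write `v = 2 σ + 1 - n`, so the values are
`±1, ±3, …, ±(2m-1)` (`vals m`). `asc` counts the ascending pairs. A rotation with all partial
sums `≤ 0` is wanted with `asc ≥ π m²/4 - O(m)`. The negative and the positive values are turned
into two lists of cells `xs`, `ys` (a value of absolute value `k` gives `k` cells `k`), each a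
permutation of `std m = [1, 3,3,3, 5,5,5,5,5, …]`, and
`J xs ys = Σ_{s<t, x_s>x_t} 1/(x_s x_t) + Σ_{s<t, y_s<y_t} 1/(y_s y_t) + Σ_{s≤t} 1/(x_s y_t)`.
-/

set_option autoImplicit false

namespace Pool.Agent.W2helper77.CS

open Real

/-! ## Definitions -/

/-- a value `k` gives `k` cells `k` -/
def blk (l : List ℕ) : List ℕ := l.flatMap fun k => List.replicate k k

/-- `[1, 3,3,3, 5,5,5,5,5, …]` up to `2m-1` -/
def std (m : ℕ) : List ℕ := blk ((List.range m).map fun k => 2 * k + 1)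

/-- `Σ_{s<t, x_s>x_t} 1/(x_s x_t)` -/
noncomputable def ivx : List ℕ → ℝ
  | [] => 0
  | a :: l => (l.map fun b : ℕ => if b < a then 1 / ((a : ℝ) * b) else 0).sum + ivx l

/-- `Σ_{s<t, y_s<y_t} 1/(y_s y_t)` -/
noncomputable def ivy : List ℕ → ℝ
  | [] => 0
  | a :: l => (l.map fun b : ℕ => if a < b then 1 / ((a : ℝ) * b) else 0).sum + ivy l

/-- `Σ_t (A + Σ_{s≤t} 1/x_s) / y_t` -/
noncomputable def crs : ℝ → List ℕ → List ℕ → ℝ
  | A, x :: xs, y :: ys => (A + 1 / (x : ℝ)) / y + crs (A + 1 / (x : ℝ)) xs ys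
  | _, _, _ => 0

noncomputable def J (xs ys : List ℕ) : ℝ := ivx xs + ivy ys + crs 0 xs ys

def IsC (m : ℕ) (xs ys : List ℕ) : Prop := xs.Perm (std m) ∧ ys.Perm (std m)

/-- the bound -/
noncomputable def B (m : ℕ) : ℝ :=
  ∑ j ∈ Finset.range m, 2 / (2 * (j : ℝ) + 1) *
    ∑ k ∈ Finset.range j, √((2 * (j : ℝ) + 1) ^ 2 - (2 * (k : ℝ) + 1) ^ 2)

/-- number of pairs `i < j` with `L_i < L_j` -/
def asc : List ℤ → ℕ
  | [] => 0
  | a :: l => l.countP (fun b => a < b) + asc l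

/-- number of pairs `i < j` with `l_i > l_j` -/
def dsc : List ℕ → ℕ
  | [] => 0
  | a :: l => l.countP (fun b => b < a) + dsc l

/-- number of pairs `i < j` with `l_i < l_j` -/
def ascN : List ℕ → ℕ
  | [] => 0
  | a :: l => l.countP (fun b => a < b) + ascN l

/-- number of pairs `i < j` with `L_i < 0 < L_j` -/
def xcr : List ℤ → ℕ
  | [] => 0
  | a :: l => (if a < 0 then l.countP (fun b => 0 < b) else 0) + xcr l

/-- the absolute values of the negative entries, in order -/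
def neg (L : List ℤ) : List ℕ := (L.filter fun v => v < 0).map Int.natAbs

/-- the absolute values of the positive entries, in order -/
def pos (L : List ℤ) : List ℕ := (L.filter fun v => 0 < v).map Int.natAbs

/-- `±1, ±3, …, ±(2m-1)` -/
def vals (m : ℕ) : List ℤ :=
  (List.range m).flatMap fun k : ℕ => [(2 * (k : ℤ) + 1), -(2 * (k : ℤ) + 1)]

/-- `0, ±2, ±4, …, ±2m` -/
def valsO (m : ℕ) : List ℤ :=
  0 :: (List.range m).flatMap fun k : ℕ => [(2 * (k : ℤ) + 2), -(2 * (k : ℤ) + 2)]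

/-- the list of the centred values of a permutation -/
def lst {n : ℕ} (σ : Equiv.Perm (Fin n)) : List ℤ :=
  List.ofFn fun i => 2 * ((σ i : ℕ) : ℤ) + 1 - n

/-! ## Pieces -/

/-- PIECE THA (helper77). -/
def S_THA : Prop := ∀ m xs ys, IsC m xs ys → B m ≤ J xs ys

/-- PIECE ROT: rotation invariance. One step: for cells `(x, y)` first, `xs`, `ys` the rest,
`J (xs ++ [x]) (ys ++ [y]) - J (x :: xs) (y :: ys) = Σ_{u∈xs} ([u>x] - [u<x])/(u x)
+ Σ_{v∈ys} ([v<y] - [v>y])/(v y) + (Σ_{u∈x::xs} 1/u)/y - (Σ_{v∈y::ys} 1/v)/x`, and with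
`x = 2a+1`, `y = 2b+1` the sums over all cells (`std m`) are `Σ 1/u = m`,
`Σ_{u>x} 1/u = m-1-a`, `Σ_{u<x} 1/u = a`; the total is `(-1-2a)/x + (2b+1)/y = 0`. -/
def S_ROT : Prop := ∀ m xs ys, IsC m xs ys → ∀ r, J (xs.rotate r) (ys.rotate r) = J xs ys

/-- PIECE CYC: cycle lemma (start where the partial sum is minimal), and its form for counts
(apply it to the list of `[y = w] - [x = w]`). -/
def S_CYC : Prop :=
  (∀ l : List ℤ, l.sum = 0 → ∃ r, ∀ i, 0 ≤ ((l.rotate r).take i).sum) ∧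
  ∀ (w : ℕ) (xs ys : List ℕ), xs.length = ys.length → xs.count w = ys.count w →
    ∃ r, ∀ i, ((xs.rotate r).take i).count w ≤ ((ys.rotate r).take i).count w

/-- PIECE PX: cells of distinct values: a pair of blocks gives `k l · 1/(k l) = 1`. -/
def S_PX : Prop := ∀ l : List ℕ, (∀ k ∈ l, 0 < k) → l.Nodup →
  ivx (blk l) = dsc l ∧ ivy (blk l) = ascN l

/-- PIECE PC. Let `G(N) = Σ_{s<N} 1/x_s` for the cells `xs = blk (neg L)`: monotone in `N`, and
`G(F) = i` if `F` is the sum of the first `i` entries of `neg L`. The block of the positive value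
`p` consists of cells `t ∈ [P, P+p)` (`P` = sum of the positive values before it), each of them
contributes `G(t+1)/p ≤ G(P+p)/p`, and `P + p ≤ F`, `F` = sum of the absolute values of the
negative values before `p` in `L` (this is the hypothesis on the partial sum). So the block
contributes at most the number of negative values before `p`. (Induction on `L` from the left
with accumulators, or from the right by `List.reverseRecOn` using
`crs A xs (ys ++ zs) = crs A xs ys + …`.) -/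
def S_PC : Prop := ∀ L : List ℤ, (∀ v ∈ L, v ≠ 0) → (∀ i, (L.take i).sum ≤ 0) →
  crs 0 (blk (neg L)) (blk (pos L)) ≤ xcr L

/-- PIECE PA: bookkeeping. -/
def S_PA : Prop :=
  (∀ L : List ℤ, (∀ v ∈ L, v ≠ 0) → asc L = dsc (neg L) + ascN (pos L) + xcr L) ∧
  ∀ m (L : List ℤ), L.Perm (vals m) → IsC m (blk (neg L)) (blk (pos L)) ∧ (∀ v ∈ L, v ≠ 0) ∧
    (neg L).Nodup ∧ (pos L).Nodup ∧ (∀ k ∈ neg L, 0 < k) ∧ ∀ k ∈ pos L, 0 < k

/-- PIECE NUM: numerical bounds. `√(w² - u²)` is antitone on `[0, w]` with integral `π w²/4`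
(Mathlib: `integral_sqrt_one_sub_sq`, `AntitoneOn.integral_le_sum`, `AntitoneOn.sum_le_integral`).
First: with `w = 2j+1`, `Σ_{k<j} 2 √(w² - (2k+1)²) ≥ ∫_1^w √(w² - u²) du ≥ π w²/4 - w`, so the
`j`-th term of `B m` is at least `π w/4 - 1`, and `Σ_{j<m} (2j+1) = m²`. -/
def S_NUM : Prop :=
  (∀ m : ℕ, π / 4 * (m : ℝ) ^ 2 - m ≤ B m) ∧
  ∀ m : ℕ, ∑ i ∈ Finset.range m, √((m : ℝ) ^ 2 - (i : ℝ) ^ 2) ≤ π / 4 * (m : ℝ) ^ 2 + m

/-- PIECE LOW: the explicit permutation. Put `N_j = ⌈√(m² - (m-j)²)⌉` (`N_0 = 0`, `N_m = m`,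
monotone); `L` is the concatenation for `j = 1, …, m` of the values `-(2i+1)`, `N_(j-1) ≤ i < N_j`,
followed by `2(m-j)+1`. After block `j` the sum is `m² - (m-j)² - N_j² ≤ 0`. The negative values
decrease, the positive values decrease, so only pairs negative before positive are ascending:
`asc L = Σ_j N_j`. -/
def S_LOW : Prop := ∀ m : ℕ, ∃ L : List ℤ, L.Perm (vals m) ∧ (∀ i, (L.take i).sum ≤ 0) ∧
  (asc L : ℝ) ≤ ∑ i ∈ Finset.range m, (√((m : ℝ) ^ 2 - (i : ℝ) ^ 2) + 1)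

/-- PIECE RL: rotation of the list of values. One step: `asc (l ++ [a]) - asc (a :: l) =
#{b ∈ l | b < a} - #{b ∈ l | a < b} = a`. -/
def S_RL : Prop := ∀ m (L : List ℤ), L.Perm (vals m) → ∀ r, r ≤ L.length →
  (asc (L.rotate r) : ℤ) = asc L + (L.take r).sum

/-- PIECE ODD: passage from `2m` to `2m+1` values. For the first part delete `0` and replace `v` by
`v ∓ 1` (a strictly monotone map on the nonzero even numbers): `asc` does not increase, and every
rotation of the shorter list comes from a rotation of the longer one. For the second part replace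
`v` by `v ± 1` and put `0` in front. -/
def S_ODD : Prop :=
  (∀ (m : ℕ) (b : ℝ), (∀ L : List ℤ, L.Perm (vals m) → ∃ r, b ≤ asc (L.rotate r)) →
    ∀ L : List ℤ, L.Perm (valsO m) → ∃ r, b ≤ asc (L.rotate r)) ∧
  ∀ (m : ℕ) (b : ℝ), (∃ L : List ℤ, L.Perm (vals m) ∧ ∀ r, (asc (L.rotate r) : ℝ) ≤ b) →
    ∃ L : List ℤ, L.Perm (valsO m) ∧ ∀ r, (asc (L.rotate r) : ℝ) ≤ b + 2 * m

/-- PIECE TR: translation between permutations and lists of values. -/
def S_TR : Prop :=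
  (∀ (n : ℕ) (σ : Equiv.Perm (Fin n)),
    2 * (asc (lst σ) + Pool.Agent.N476.CT.inv σ) = n * (n - 1)) ∧
  (∀ (n : ℕ) (σ : Equiv.Perm (Fin n)) (i : ℕ), lst (σ * finRotate n ^ i) = (lst σ).rotate i) ∧
  (∀ (m : ℕ) (σ : Equiv.Perm (Fin (2 * m))), (lst σ).Perm (vals m)) ∧
  (∀ (m : ℕ) (σ : Equiv.Perm (Fin (2 * m + 1))), (lst σ).Perm (valsO m)) ∧
  (∀ (m : ℕ) (L : List ℤ), L.Perm (vals m) → ∃ σ : Equiv.Perm (Fin (2 * m)), lst σ = L) ∧
  ∀ (m : ℕ) (L : List ℤ), L.Perm (valsO m) → ∃ σ : Equiv.Perm (Fin (2 * m + 1)), lst σ = L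

/-- PIECE GR: a walk of length `k` from `c_n` to `σ c_n σ⁻¹` gives a product `τ` of `k` adjacent
transpositions with `τ c_n τ⁻¹ = σ c_n σ⁻¹`, so `inv τ ≤ k`, and `σ⁻¹ τ` commutes with `c_n`, so
it is a power of `c_n` (`ρ (j) = ρ (0) + j`, see `N476.CT.rot_apply`). -/
def S_GR : Prop := ∀ (n : ℕ), 1 ≤ n → ∀ (σ : Equiv.Perm (Fin n)) (γ : Pool.Agent.N476.CT.Cyc n),
  γ.1 = σ * finRotate n * σ⁻¹ → ∀ k : ℕ,
    (∀ i < n, k ≤ Pool.Agent.N476.CT.inv (σ * finRotate n ^ i)) →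
    (k : ℕ∞) ≤ (Pool.Agent.N476.CT.Gam n).edist (Pool.Agent.N476.CT.cyc n) γ

end Pool.Agent.W2helper77.CS
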