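import Pool.Agent.W2helper77.CS.Main

/-!
# Project CS: the lower bound `B m ≤ J xs ys`
-/

set_option autoImplicit false

namespace Pool.Agent.W2helper77.CS

open Real

theorem fl_mem {w u : ℕ} {l : List ℕ} (h : u ∈ fl w l) : u ∈ l ∧ u ≠ w := by
  simpa [fl] using h

theorem T1_shift (w : ℕ) (xs : List ℕ) (a : ℕ) :
    T1 w (a + 1) xs = T1 w a xs + ((fl w xs).map fun u : ℕ => 1 / ((w : ℝ) * u)).sum := by
  induction xs generalizing a with
  | nil => simp [T1, fl]
  | cons x xs ih =>
    by_cases hx : x = w
    · subst hx
      simp only [T1, if_true, fl_cons_eq]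
      exact ih (a + 1)
    · simp only [T1, if_neg hx, fl_cons_ne hx, List.map_cons, List.sum_cons]
      rw [ih a]
      push_cast
      ring

theorem T2_shift (w : ℕ) (ys : List ℕ) (β δ : ℝ) :
    T2 w (β + δ) ys = T2 w β ys + δ * ys.count w / w := by
  induction ys generalizing β with
  | nil => simp [T2]
  | cons y ys ih =>
    by_cases hy : y = w
    · subst hy
      simp only [T2, if_true, List.count_cons_self]
      rw [ih β]
      push_cast
      ring
    · simp only [T2, if_neg hy]
      rw [List.count_cons_of_ne hy, ← ih (β + 1 / (y:ℝ))]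
      congr 1
      ring

theorem I1 (w : ℕ) (xs : List ℕ) (h : ∀ u ∈ xs, 0 < u ∧ u ≤ w) :
    ivx xs = ivx (fl w xs) + T1 w 0 xs := by
  induction xs with
  | nil => simp [ivx, fl, T1]
  | cons x xs ih =>
    have ih' := ih (fun u hu => h u (by simp [hu]))
    have hxs : ∀ u ∈ xs, 0 < u ∧ u ≤ w := fun u hu => h u (by simp [hu])
    by_cases hx : x = w
    · subst hx
      simp only [ivx, T1, if_true, fl_cons_eq]
      rw [ih', T1_shift]
      have e : (xs.map fun b : ℕ => if b < x then 1 / ((x : ℝ) * b) else 0).sum =
          ((fl x xs).map fun u : ℕ => 1 / ((x : ℝ) * u)).sum := by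
        clear ih ih'
        induction xs with
        | nil => simp [fl]
        | cons y ys ih2 =>
          have hys : ∀ u ∈ ys, 0 < u ∧ u ≤ x := fun u hu => hxs u (by simp [hu])
          have hy := (hxs y (by simp)).2
          have ih3 := ih2 (by
            intro u hu
            rcases List.mem_cons.1 hu with h1 | h1
            · exact h u (by simp [h1])
            · exact hys u h1) hys
          by_cases hyx : y = x
          · subst hyx
            rw [fl_cons_eq, List.map_cons, List.sum_cons, if_neg (lt_irrefl _), zero_add]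
            exact ih3
          · rw [fl_cons_ne hyx, List.map_cons, List.sum_cons, List.map_cons, List.sum_cons,
              if_pos (by omega), ih3]
      rw [e]
      ring
    · simp only [ivx, T1, if_neg hx, fl_cons_ne hx]
      rw [ih']
      have hxw := (h x (by simp)).2
      have e : (xs.map fun b : ℕ => if b < x then 1 / ((x : ℝ) * b) else 0).sum =
          ((fl w xs).map fun b : ℕ => if b < x then 1 / ((x : ℝ) * b) else 0).sum := by
        clear ih ih' h hxs
        induction xs with
        | nil => simp [fl]
        | cons y ys ih2 =>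
          by_cases hyw : y = w
          · subst hyw
            rw [fl_cons_eq, List.map_cons, List.sum_cons, if_neg (by omega), zero_add, ih2]
          · rw [fl_cons_ne hyw, List.map_cons, List.sum_cons, List.map_cons, List.sum_cons, ih2]
      rw [e]
      simp
      ring

theorem I2 (w : ℕ) (hw : 0 < w) (ys : List ℕ) (h : ∀ u ∈ ys, 0 < u ∧ u ≤ w) :
    ivy ys = ivy (fl w ys) + T2 w 0 ys := by
  induction ys with
  | nil => simp [ivy, fl, T2]
  | cons y ys ih =>
    have hys : ∀ u ∈ ys, 0 < u ∧ u ≤ w := fun u hu => h u (by simp [hu])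
    have ih' := ih hys
    obtain ⟨hy0, hyw⟩ := h y (by simp)
    have hw' : (0:ℝ) < w := by exact_mod_cast hw
    have hy0' : (0:ℝ) < y := by exact_mod_cast hy0
    by_cases hy : y = w
    · subst hy
      simp only [ivy, T2, if_true, fl_cons_eq]
      rw [ih']
      have e : (ys.map fun b : ℕ => if y < b then 1 / ((y : ℝ) * b) else 0).sum = 0 := by
        apply List.sum_eq_zero
        intro z hz
        rw [List.mem_map] at hz
        obtain ⟨b, hb, rfl⟩ := hz
        rw [if_neg (by have := (hys b hb).2; omega)]
      rw [e]
      ring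
    · simp only [ivy, T2, if_neg hy, fl_cons_ne hy]
      rw [ih']
      have h2 := T2_shift w ys 0 (1 / (y:ℝ))
      rw [zero_add] at h2 ⊢
      rw [h2]
      have hlt : y < w := lt_of_le_of_ne hyw hy
      have e : (ys.map fun b : ℕ => if y < b then 1 / ((y : ℝ) * b) else 0).sum =
          ((fl w ys).map fun b : ℕ => if y < b then 1 / ((y : ℝ) * b) else 0).sum +
            1 / (y : ℝ) * ys.count w / w := by
        clear ih ih' h h2 hys
        induction ys with
        | nil => simp [fl]
        | cons z zs ih2 =>
          by_cases hz : z = w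
          · subst hz
            rw [fl_cons_eq, List.map_cons, List.sum_cons, if_pos hlt, ih2, List.count_cons_self]
            push_cast
            field_simp
            ring
          · rw [fl_cons_ne hz, List.map_cons, List.sum_cons, List.map_cons, List.sum_cons, ih2,
              List.count_cons_of_ne hz]
            ring
      rw [e]
      ring

theorem J_step (w : ℕ) (hw : 0 < w) (xs ys : List ℕ) (hl : xs.length = ys.length)
    (hxs : ∀ u ∈ xs, 0 < u ∧ u ≤ w) (hys : ∀ u ∈ ys, 0 < u ∧ u ≤ w)
    (hx : xs.count w = w) (hy : ys.count w = w)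
    (hp : ∀ i, (xs.take i).count w ≤ (ys.take i).count w) :
    J (fl w xs) (fl w ys) + (S w (fl w xs) + S w (fl w ys)) ≤ J xs ys := by
  have h := main w hw xs ys [] 0 0 0 hl hxs hys (by simp) (by omega) (by simp [hy])
    (by simpa using hp)
  simp only [rs, List.map_nil, List.sum_nil, sub_zero, List.nil_append, Ph, mul_zero, add_zero,
    zero_mul, zero_div, Nat.cast_zero] at h
  unfold J
  rw [I1 w xs hxs, I2 w hw ys hys]
  linarith

theorem std_succ (m : ℕ) : std (m + 1) = std m ++ List.replicate (2 * m + 1) (2 * m + 1) := by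
  unfold std blk
  rw [List.range_succ, List.map_append, List.flatMap_append]
  simp

theorem std_mem {m u : ℕ} (h : u ∈ std m) : 0 < u ∧ u + 1 ≤ 2 * m := by
  unfold std blk at h
  simp only [List.mem_flatMap, List.mem_map, List.mem_range, List.mem_replicate] at h
  obtain ⟨k, ⟨j, hj, rfl⟩, -, rfl⟩ := h
  omega

theorem fl_std (m : ℕ) : fl (2 * m + 1) (std (m + 1)) = std m := by
  rw [std_succ]
  unfold fl
  rw [List.filter_append, List.filter_eq_self.2, List.filter_eq_nil_iff.2, List.append_nil]
  · intro u hu
    rw [List.mem_replicate] at hu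
    simp [hu.2]
  · intro u hu
    have := std_mem hu
    simp only [decide_eq_true_eq]
    omega

theorem std_count (m : ℕ) : (std (m + 1)).count (2 * m + 1) = 2 * m + 1 := by
  rw [std_succ, List.count_append, List.count_replicate_self]
  have : (std m).count (2 * m + 1) = 0 := by
    rw [List.count_eq_zero]
    intro h
    have := std_mem h
    omega
  omega

theorem S_perm {w : ℕ} {l l' : List ℕ} (h : l.Perm l') : S w l = S w l' := by
  unfold S
  exact (h.map _).sum_eq

theorem S_std (w m : ℕ) : S w (std m) = 1 / (w:ℝ) * ∑ k ∈ Finset.range m, sq w (2 * k + 1) := by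
  induction m with
  | zero => simp [S, std, blk]
  | succ m ih =>
    have e : S w (std (m + 1)) = S w (std m) + S w (List.replicate (2 * m + 1) (2 * m + 1)) := by
      rw [std_succ]
      unfold S
      rw [List.map_append, List.sum_append]
    rw [e, ih, Finset.sum_range_succ]
    unfold S
    rw [List.map_replicate, List.sum_replicate, nsmul_eq_mul]
    have h : (0:ℝ) < ((2 * m + 1 : ℕ) : ℝ) := by positivity
    by_cases hw : (w:ℝ) = 0
    · simp [hw]
    · field_simp

theorem B_succ (m : ℕ) : B (m + 1) = B m + 2 / (2 * (m:ℝ) + 1) *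
    ∑ k ∈ Finset.range m, sq (2 * m + 1) (2 * k + 1) := by
  unfold B
  rw [Finset.sum_range_succ]
  congr 2
  refine Finset.sum_congr rfl fun k _ => ?_
  unfold sq
  push_cast
  rfl

theorem fl_perm {w : ℕ} {l l' : List ℕ} (h : l.Perm l') : (fl w l).Perm (fl w l') :=
  h.filter _

theorem tha (hrot : S_ROT) (hcyc : S_CYC) : S_THA := by
  intro m
  induction m with
  | zero =>
    intro xs ys h
    have hx : xs = [] := by
      have := h.1
      simpa [std, blk] using this
    have hy : ys = [] := by
      have := h.2
      simpa [std, blk] using this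
    subst hx hy
    simp [B, J, ivx, ivy, crs]
  | succ m ih =>
    intro xs ys h
    have hcx : xs.count (2 * m + 1) = 2 * m + 1 := by rw [h.1.count_eq, std_count]
    have hcy : ys.count (2 * m + 1) = 2 * m + 1 := by rw [h.2.count_eq, std_count]
    have hlen : xs.length = ys.length := by rw [h.1.length_eq, h.2.length_eq]
    obtain ⟨r, hr⟩ := hcyc.2 (2 * m + 1) xs ys hlen (by rw [hcx, hcy])
    rw [← hrot (m + 1) xs ys h r]
    set xs' := xs.rotate r with hxs'
    set ys' := ys.rotate r with hys'
    have px : xs'.Perm (std (m + 1)) := (List.rotate_perm xs r).trans h.1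
    have py : ys'.Perm (std (m + 1)) := (List.rotate_perm ys r).trans h.2
    have hb : ∀ u ∈ std (m + 1), 0 < u ∧ u ≤ 2 * m + 1 := by
      intro u hu
      have := std_mem hu
      omega
    have h1 := J_step (2 * m + 1) (by omega) xs' ys' (by rw [px.length_eq, py.length_eq])
      (fun u hu => hb u (px.subset hu)) (fun u hu => hb u (py.subset hu))
      (by rw [px.count_eq, std_count]) (by rw [py.count_eq, std_count]) hr
    have qx : (fl (2 * m + 1) xs').Perm (std m) := by
      rw [← fl_std m]
      exact fl_perm px
    have qy : (fl (2 * m + 1) ys').Perm (std m) := by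
      rw [← fl_std m]
      exact fl_perm py
    have h2 := ih _ _ ⟨qx, qy⟩
    rw [S_perm qx, S_perm qy, S_std] at h1
    rw [B_succ]
    have e : 2 / (2 * (m:ℝ) + 1) * ∑ k ∈ Finset.range m, sq (2 * m + 1) (2 * k + 1) =
        1 / (((2 * m + 1 : ℕ) : ℝ)) * ∑ k ∈ Finset.range m, sq (2 * m + 1) (2 * k + 1) +
        1 / (((2 * m + 1 : ℕ) : ℝ)) * ∑ k ∈ Finset.range m, sq (2 * m + 1) (2 * k + 1) := by
      push_cast
      ring
    rw [e]
    linarith

end Pool.Agent.W2helper77.CS
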